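import Pool.Agent.SZG.StmtsY

set_option autoImplicit false

/-! Row HLB of the squad SZG: `S` bounds the height from below. -/

namespace Pool.Agent.SZG.H43

open scoped BigOperators
open Pool.Agent.THS Pool.Agent.SZG

theorem tc_scale {K ι : Type} [Field K] (v : AbsoluteValue K ℝ) {θ : ℝ} {κ : K} (hκ : κ ≠ 0)
    {y z y' : ι → K} (hz : ∀ p, z p = κ * y p) (h : TC v θ z y') : TC v θ y y' := by
  intro p q
  have h1 := h p q
  have hv : 0 < v κ := v.pos hκ
  have e1 : z p * y' q - z q * y' p = κ * (y p * y' q - y q * y' p) := by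
    rw [hz, hz]
    ring
  have e2 : nv v z = v κ * nv v y := by
    unfold nv
    rw [Real.mul_iSup_of_nonneg hv.le]
    congr 1
    funext i
    rw [hz, map_mul]
  rw [e1, e2, map_mul] at h1
  have h2 : v κ * v (y p * y' q - y q * y' p) ≤ v κ * (θ * (nv v y * nv v y')) := by
    linarith
  exact le_of_mul_le_mul_left h2 hv

theorem hlb (h1 : XprStmt) (h2 : XneStmt) (h3 : MnhStmt) : HlbStmt := by
  intro g K _ _ φ τ hτ z l hl x hx hμ S ev hS
  classical
  have : NeZero l := ⟨hl.ne'⟩
  choose! P Q hPQ hTC using hS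
  set bd : ℝ := 2 * Real.log (Height.mulHeight (x 0)) +
    (2 * g + 1) * Module.finrank ℚ K * Real.log 2 with hbd
  have hlog0 : 0 ≤ Real.log (Height.mulHeight (x 0)) :=
    Real.log_nonneg (Height.one_le_mulHeight _)
  have hlog2 : 0 ≤ Real.log 2 := Real.log_nonneg (by norm_num)
  have hbd0 : 0 ≤ bd := by positivity
  set cl : NumberField.FinitePlace K → (Fin g → ZMod l) × (Fin g → ZMod l) := fun v =>
    (fun i => ((P v i : ℤ) : ZMod l), fun i => ((Q v i : ℤ) : ZMod l)) with hcl
  have hclass : ∀ c, ∑ v ∈ S.filter (fun v => cl v = c), (ev v : ℝ) * lN v ≤ bd := by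
    intro c
    rcases (S.filter (fun v => cl v = c)).eq_empty_or_nonempty with he | ⟨v0, hv0⟩
    · rw [he, Finset.sum_empty]
      exact hbd0
    · rw [Finset.mem_filter] at hv0
      obtain ⟨hv0S, hv0c⟩ := hv0
      obtain ⟨hmin, hht⟩ := h2 g K φ τ hτ z l hl x hx hμ (P v0) (Q v0) (hPQ v0 hv0S)
      have hT : ∀ v ∈ S.filter (fun v => cl v = c),
          TC v.val ((qv v ^ ev v)⁻¹) (x (0, P v0, Q v0)) (x 0) := by
        intro v hv
        rw [Finset.mem_filter] at hv
        obtain ⟨hvS, hvc⟩ := hv
        have hcc : cl v = cl v0 := hvc.trans hv0c.symm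
        have hPd : ∀ i, ∃ r : ℤ, P v i = P v0 i + (l : ℤ) * r := by
          intro i
          have e := congrFun (congrArg Prod.fst hcc) i
          have e' : ((P v0 i : ℤ) : ZMod l) = ((P v i : ℤ) : ZMod l) := e.symm
          rw [ZMod.intCast_eq_intCast_iff_dvd_sub] at e'
          obtain ⟨r, hr⟩ := e'
          exact ⟨r, by linarith⟩
        have hQd : ∀ i, ∃ r : ℤ, Q v i = Q v0 i + (l : ℤ) * r := by
          intro i
          have e := congrFun (congrArg Prod.snd hcc) i
          have e' : ((Q v0 i : ℤ) : ZMod l) = ((Q v i : ℤ) : ZMod l) := e.symm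
          rw [ZMod.intCast_eq_intCast_iff_dvd_sub] at e'
          obtain ⟨r, hr⟩ := e'
          exact ⟨r, by linarith⟩
        choose p' hp' using hPd
        choose q' hq' using hQd
        obtain ⟨κ, hκ, hκx⟩ := h1 g K φ τ hτ z l hl x hx hμ 0 (P v0) (Q v0) p' q'
        have eP : P v = fun i => P v0 i + (l : ℤ) * p' i := funext hp'
        have eQ : Q v = fun i => Q v0 i + (l : ℤ) * q' i := funext hq'
        have ht := hTC v hvS
        rw [eP, eQ] at ht
        exact tc_scale v.val hκ hκx ht
      obtain ⟨ab, cd, hne⟩ := hmin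
      have h4 := h3 K (Ch g × Ch g) (x (0, P v0, Q v0)) (x 0)
        (S.filter (fun v => cl v = c)) ev ⟨ab, cd, hne⟩ hT
      have h5 : Real.log (Height.mulHeight (x (0, P v0, Q v0))) ≤
          2 * g * Module.finrank ℚ K * Real.log 2 + Real.log (Height.mulHeight (x 0)) := by
        have h6 := Real.log_le_log (Height.mulHeight_pos _) hht
        rw [Real.log_mul (by positivity) (Height.mulHeight_ne_zero _), Real.log_pow] at h6
        have h7 : Real.log 4 = 2 * Real.log 2 := by
          rw [show (4 : ℝ) = 2 ^ 2 by norm_num, Real.log_pow]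
          norm_num
        rw [h7] at h6
        push_cast at h6
        linarith
      rw [hbd]
      linarith
  rw [← Finset.sum_fiberwise S cl (fun v => (ev v : ℝ) * lN v)]
  refine (Finset.sum_le_sum (fun c _ => hclass c)).trans (le_of_eq ?_)
  rw [Finset.sum_const, nsmul_eq_mul, Finset.card_univ]
  congr 1
  rw [Fintype.card_prod, Fintype.card_fun, ZMod.card, Fintype.card_fin]
  push_cast
  ring

end Pool.Agent.SZG.H43
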