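import Pool.Agent.SZG.StmtsF

set_option autoImplicit false

namespace Pool.Agent.SZG.H43

open scoped BigOperators
open Pool.Agent.THS

/-- translation by `t / (4 l)` -/
theorem ff_shift (hTPE : TpeStatement) {g : ℕ} (τ : Matrix (Fin g) (Fin g) ℂ)
    (hτ : τ.transpose = τ) (l : ℕ) (hl : 0 < l) (p q : Fin g → ℤ) (a : Ch g) (w : Fin g → ℂ)
    (t : Fin g → ℤ) :
    FF τ l p q a (fun i => w i + (t i : ℂ) / (4 * (l : ℂ))) =
      Complex.exp (2 * Real.pi * Complex.I *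
        ∑ i, ((4 * q i + (l : ℤ) * ((a i).val : ℤ) : ℤ) : ℂ) * (t i : ℂ) / (2 * (l : ℂ))) *
        FF τ l p q a w := by
  have hl0 : (l : ℂ) ≠ 0 := Nat.cast_ne_zero.mpr (by omega)
  have h2τ : ((2 : ℂ) • τ).transpose = (2 : ℂ) • τ := by
    rw [Matrix.transpose_smul, hτ]
  have h1 := (hTPE g ((2 : ℂ) • τ) h2τ (hv a)
    (fun i => 2 * (2 * (l : ℂ) * w i + 2 * ((p i : ℂ) + ∑ j, τ i j * (q j : ℂ)) / (l : ℂ))) t).2.1
  unfold FF Thc
  have h2 : (fun i => 2 * (2 * (l : ℂ) * (w i + (t i : ℂ) / (4 * (l : ℂ))) +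
      2 * ((p i : ℂ) + ∑ j, τ i j * (q j : ℂ)) / (l : ℂ))) =
      (fun i => 2 * (2 * (l : ℂ) * w i + 2 * ((p i : ℂ) + ∑ j, τ i j * (q j : ℂ)) / (l : ℂ)) +
        (t i : ℂ)) := by
    funext i
    field_simp
    ring
  rw [h2, h1, ← mul_assoc, ← mul_assoc, ← Complex.exp_add, ← Complex.exp_add]
  congr 2
  rw [Finset.mul_sum, Finset.mul_sum, Finset.mul_sum, Finset.mul_sum, ← Finset.sum_add_distrib,
    ← Finset.sum_add_distrib]
  refine Finset.sum_congr rfl (fun i _ => ?_)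
  unfold hv
  push_cast
  field_simp
  ring

/-- the geometric sum -/
theorem geo (N : ℕ) (hN : 0 < N) (M : ℤ) :
    ∑ j : Fin N, Complex.exp (2 * Real.pi * Complex.I * ((M : ℂ) * ((j.val : ℤ) : ℂ) / (N : ℂ))) =
      if (N : ℤ) ∣ M then (N : ℂ) else 0 := by
  have hN0 : (N : ℂ) ≠ 0 := Nat.cast_ne_zero.mpr (by omega)
  have hpi : (2 * (Real.pi : ℂ) * Complex.I) ≠ 0 := by
    have := Complex.ofReal_ne_zero.mpr Real.pi_ne_zero
    simp [this]
  set ζ : ℂ := Complex.exp (2 * Real.pi * Complex.I * ((M : ℂ) / (N : ℂ))) with hζ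
  have hterm : ∀ j : Fin N, Complex.exp (2 * Real.pi * Complex.I *
      ((M : ℂ) * ((j.val : ℤ) : ℂ) / (N : ℂ))) = ζ ^ j.val := by
    intro j
    rw [hζ, ← Complex.exp_nat_mul]
    congr 1
    push_cast
    ring
  rw [Finset.sum_congr rfl (fun j _ => hterm j), Fin.sum_univ_eq_sum_range (fun j => ζ ^ j) N]
  have hζN : ζ ^ N = 1 := by
    rw [hζ, ← Complex.exp_nat_mul, Complex.exp_eq_one_iff]
    refine ⟨M, ?_⟩
    field_simp
  have hiff : ζ = 1 ↔ (N : ℤ) ∣ M := by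
    rw [hζ, Complex.exp_eq_one_iff]
    constructor
    · rintro ⟨n, hn⟩
      refine ⟨n, ?_⟩
      have h1 : (M : ℂ) / (N : ℂ) = (n : ℂ) := by
        have h2 : 2 * (Real.pi : ℂ) * Complex.I * ((M : ℂ) / (N : ℂ)) =
          2 * (Real.pi : ℂ) * Complex.I * (n : ℂ) := by rw [hn]; ring
        exact mul_left_cancel₀ hpi h2
      rw [div_eq_iff hN0] at h1
      have h3 : (M : ℂ) = ((N * n : ℤ) : ℂ) := by rw [h1]; push_cast; ring
      exact_mod_cast h3
    · rintro ⟨n, rfl⟩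
      refine ⟨n, ?_⟩
      push_cast
      field_simp
  split_ifs with h
  · rw [hiff.mpr h]
    simp
  · have hne : ζ ≠ 1 := fun h' => h (hiff.mp h')
    rw [geom_sum_eq hne, hζN, sub_self, zero_div]

/-- orthogonality -/
theorem ortho {g : ℕ} (N : ℕ) (hN : 0 < N) (M : Fin g → ℤ) :
    ∑ t : Fin g → Fin N, Complex.exp (2 * Real.pi * Complex.I *
      ∑ i, (M i : ℂ) * (((t i).val : ℤ) : ℂ) / (N : ℂ)) =
      if ∀ i, (N : ℤ) ∣ M i then (N : ℂ) ^ g else 0 := by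
  have h1 : ∀ t : Fin g → Fin N, Complex.exp (2 * Real.pi * Complex.I *
      ∑ i, (M i : ℂ) * (((t i).val : ℤ) : ℂ) / (N : ℂ)) =
      ∏ i, Complex.exp (2 * Real.pi * Complex.I *
        ((M i : ℂ) * (((t i).val : ℤ) : ℂ) / (N : ℂ))) := by
    intro t
    rw [Finset.mul_sum, Complex.exp_sum]
  rw [Finset.sum_congr rfl (fun t _ => h1 t)]
  have h2 := Finset.prod_univ_sum (fun _ : Fin g => (Finset.univ : Finset (Fin N)))
    (fun i j => Complex.exp (2 * Real.pi * Complex.I *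
        ((M i : ℂ) * ((j.val : ℤ) : ℂ) / (N : ℂ))))
  rw [Fintype.piFinset_univ] at h2
  rw [← h2, Finset.prod_congr rfl (fun i _ => geo N hN (M i))]
  split_ifs with h
  · rw [Finset.prod_congr rfl (fun i _ => if_pos (h i))]
    simp
  · push Not at h
    obtain ⟨i, hi⟩ := h
    exact Finset.prod_eq_zero (Finset.mem_univ i) (if_neg hi)

theorem sep {l : ℕ} (hl : Odd l) (q q' : Fin l) (a a' : ZMod 2)
    (h : ((2 * l : ℕ) : ℤ) ∣ (4 * ((q'.val : ℕ) : ℤ) + (l : ℤ) * (a'.val : ℤ)) -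
      (4 * ((q.val : ℕ) : ℤ) + (l : ℤ) * (a.val : ℤ))) : q' = q ∧ a' = a := by
  have hl0 : 0 < l := hl.pos
  have h1 : (l : ℤ) ∣ 4 * (((q'.val : ℕ) : ℤ) - ((q.val : ℕ) : ℤ)) := by
    obtain ⟨k, hk⟩ := h
    refine ⟨2 * k - ((a'.val : ℤ) - (a.val : ℤ)), ?_⟩
    push_cast at hk
    linear_combination hk
  have hco : IsCoprime (l : ℤ) 4 := by
    have h2 : Nat.Coprime l 4 := by
      have h3 : Nat.Coprime l 2 := Nat.coprime_two_right.mpr hl
      have h4 : Nat.Coprime l (2 ^ 2) := Nat.Coprime.pow_right 2 h3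
      simpa using h4
    exact_mod_cast Nat.isCoprime_iff_coprime.mpr h2
  have h2 : (l : ℤ) ∣ ((q'.val : ℕ) : ℤ) - ((q.val : ℕ) : ℤ) := hco.dvd_of_dvd_mul_left h1
  have h3 : ((q'.val : ℕ) : ℤ) - ((q.val : ℕ) : ℤ) = 0 := by
    refine Int.eq_zero_of_abs_lt_dvd h2 ?_
    have := q.isLt
    have := q'.isLt
    rw [abs_lt]
    constructor <;> omega
  have hq : q' = q := by
    apply Fin.ext
    omega
  refine ⟨hq, ?_⟩
  subst hq
  obtain ⟨k, hk⟩ := h
  push_cast at hk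
  have h4 : (l : ℤ) * ((a'.val : ℤ) - (a.val : ℤ)) = (l : ℤ) * (2 * k) := by
    linear_combination hk
  have h5 : (a'.val : ℤ) - (a.val : ℤ) = 2 * k :=
    mul_left_cancel₀ (by exact_mod_cast hl0.ne') h4
  have h6 : a'.val < 2 := ZMod.val_lt a'
  have h7 : a.val < 2 := ZMod.val_lt a
  apply ZMod.val_injective 2
  omega

/-- row FL1 -/
theorem fl1 (hTPE : TpeStatement) : Fl1Stmt := by
  intro g τ hτ l hl κ h0 a q w
  have hl0 : 0 < l := hl.pos
  have hN : 0 < 2 * l := by omega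
  set F : Row g l → ℂ := fun r => FF τ l (lft r.2).2.1 (lft r.2).2.2 r.1 w with hF
  set Mr : Row g l → Fin g → ℤ := fun r i => 4 * ((r.2.2 i).val : ℤ) + (l : ℤ) * ((r.1 i).val : ℤ)
    with hMr
  -- the translated relations
  have h1 : ∀ t : Fin g → Fin (2 * l), ∑ r : Row g l, κ r * (Complex.exp (2 * Real.pi * Complex.I *
      ∑ i, (Mr r i : ℂ) * (((t i).val : ℤ) : ℂ) / ((2 * l : ℕ) : ℂ)) * F r) = 0 := by
    intro t
    have h2 := h0 (fun i => w i + (((t i).val : ℤ) : ℂ) / (4 * (l : ℂ)))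
    rw [← h2]
    refine Finset.sum_congr rfl (fun r _ => ?_)
    rw [ff_shift hTPE τ hτ.1 l hl0 (lft r.2).2.1 (lft r.2).2.2 r.1 w (fun i => ((t i).val : ℤ))]
    rw [hF, hMr]
    simp only [lft]
    push_cast
    rfl
  -- multiply and sum
  have h2 : ∑ t : Fin g → Fin (2 * l), Complex.exp (-(2 * Real.pi * Complex.I *
      ∑ i, ((4 * ((q i).val : ℤ) + (l : ℤ) * ((a i).val : ℤ) : ℤ) : ℂ) * (((t i).val : ℤ) : ℂ) /
        ((2 * l : ℕ) : ℂ))) *
      ∑ r : Row g l, κ r * (Complex.exp (2 * Real.pi * Complex.I *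
      ∑ i, (Mr r i : ℂ) * (((t i).val : ℤ) : ℂ) / ((2 * l : ℕ) : ℂ)) * F r) = 0 := by
    refine Finset.sum_eq_zero (fun t _ => ?_)
    rw [h1 t, mul_zero]
  have h3 : ∑ r : Row g l, κ r * F r *
      (if ∀ i, ((2 * l : ℕ) : ℤ) ∣ Mr r i - (4 * ((q i).val : ℤ) + (l : ℤ) * ((a i).val : ℤ)) then
        ((2 * l : ℕ) : ℂ) ^ g else 0) = 0 := by
    refine Eq.trans ?_ h2
    rw [Finset.sum_congr rfl (fun t _ => Finset.mul_sum _ _ _), Finset.sum_comm]
    refine Finset.sum_congr rfl (fun r _ => ?_)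
    rw [← ortho (2 * l) hN (fun i => Mr r i - (4 * ((q i).val : ℤ) + (l : ℤ) * ((a i).val : ℤ))),
      Finset.mul_sum]
    refine Finset.sum_congr rfl (fun t _ => ?_)
    have h4 : Complex.exp (2 * Real.pi * Complex.I *
        ∑ i, ((Mr r i - (4 * ((q i).val : ℤ) + (l : ℤ) * ((a i).val : ℤ)) : ℤ) : ℂ) *
          (((t i).val : ℤ) : ℂ) / ((2 * l : ℕ) : ℂ)) =
        Complex.exp (-(2 * Real.pi * Complex.I *
          ∑ i, ((4 * ((q i).val : ℤ) + (l : ℤ) * ((a i).val : ℤ) : ℤ) : ℂ) *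
            (((t i).val : ℤ) : ℂ) / ((2 * l : ℕ) : ℂ))) *
        Complex.exp (2 * Real.pi * Complex.I *
          ∑ i, (Mr r i : ℂ) * (((t i).val : ℤ) : ℂ) / ((2 * l : ℕ) : ℂ)) := by
      rw [← Complex.exp_add]
      congr 1
      rw [neg_add_eq_sub, ← mul_sub, ← Finset.sum_sub_distrib]
      congr 1
      refine Finset.sum_congr rfl (fun i _ => ?_)
      push_cast
      ring
    rw [h4]
    ring
  -- the remaining terms
  have h4 : ∀ r : Row g l, (∀ i, ((2 * l : ℕ) : ℤ) ∣ Mr r i -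
      (4 * ((q i).val : ℤ) + (l : ℤ) * ((a i).val : ℤ))) ↔ (r.1 = a ∧ r.2.2 = q) := by
    intro r
    constructor
    · intro h
      constructor
      · funext i
        exact (sep hl (q i) (r.2.2 i) (a i) (r.1 i) (h i)).2
      · funext i
        exact (sep hl (q i) (r.2.2 i) (a i) (r.1 i) (h i)).1
    · rintro ⟨e1, e2⟩ i
      rw [hMr]
      simp only [e1, e2, sub_self]
      exact dvd_zero _
  have h5 : ∑ r : Row g l, κ r * F r * (if r.1 = a ∧ r.2.2 = q then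
      ((2 * l : ℕ) : ℂ) ^ g else 0) = 0 := by
    refine Eq.trans ?_ h3
    refine Finset.sum_congr rfl (fun r _ => ?_)
    rw [if_congr (h4 r) rfl rfl]
  have h6 : ∑ r : Row g l, κ r * F r * (if r.1 = a ∧ r.2.2 = q then
      ((2 * l : ℕ) : ℂ) ^ g else 0) =
      (∑ p : Fin g → Fin l, κ (a, p, q) * FF τ l (fun i => ((p i).val : ℤ))
        (fun i => ((q i).val : ℤ)) a w) * ((2 * l : ℕ) : ℂ) ^ g := by
    rw [Fintype.sum_prod_type, Finset.sum_eq_single a]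
    · rw [Fintype.sum_prod_type, Finset.sum_mul]
      refine Finset.sum_congr rfl (fun p _ => ?_)
      rw [Finset.sum_eq_single q]
      · simp only [and_self, if_true]
        rfl
      · intro q' _ hq'
        rw [if_neg (fun h => hq' h.2), mul_zero]
      · intro h
        exact absurd (Finset.mem_univ q) h
    · intro a' _ ha'
      refine Finset.sum_eq_zero (fun b _ => ?_)
      rw [if_neg (fun h => ha' h.1), mul_zero]
    · intro h
      exact absurd (Finset.mem_univ a) h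
  rw [h5] at h6
  have hne : ((2 * l : ℕ) : ℂ) ^ g ≠ 0 := pow_ne_zero _ (Nat.cast_ne_zero.mpr (by omega))
  exact (mul_eq_zero.mp h6.symm).resolve_right hne

end Pool.Agent.SZG.H43
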