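import Pool.Agent.SZG.StmtsE

set_option autoImplicit false

namespace Pool.Agent.SZG.H43

open scoped BigOperators
open Pool.Agent.THS

theorem wf_pow {K I : Type} [Field K] [AddCommGroup I] (v : AbsoluteValue K ℝ) (E : ℕ)
    (hE : 0 < E) (e : I → I → K) (i : I) (h : e (E • i) i ≠ 0) :
    Wf v E e i ^ (2 * E) = v (e (E • i) i) := by
  have hv : 0 < v (e (E • i) i) := v.pos h
  have hE' : (E : ℝ) ≠ 0 := by positivity
  unfold Wf
  rw [← Real.exp_nat_mul]
  push_cast
  rw [mul_div_cancel₀ _ (mul_ne_zero two_ne_zero hE'), Real.exp_log hv]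

/-- row WPR -/
theorem wpr : WprStmt := by
  intro K _ g E L0 c e s T x l hQ R r k
  have hne : ∀ i : Idx g, e (E • i) i ≠ 0 := fun i => hQ.ene _ (hQ.mem i) i
  refine ⟨(∏ i : Fin R, e (E • lft (r i).2) (lft (r i).2)) *
    ∏ j : Fin R, e (E • ((l * k j) • Zz g)) ((l * k j) • Zz g), ?_, ?_⟩
  · exact mul_ne_zero (Finset.prod_ne_zero_iff.mpr fun i _ => hne _)
      (Finset.prod_ne_zero_iff.mpr fun i _ => hne _)
  · intro v
    rw [mul_pow, ← Finset.prod_pow, ← Finset.prod_pow, map_mul, map_prod, map_prod]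
    congr 1
    · exact Finset.prod_congr rfl fun i _ => wf_pow v E hQ.hE e _ (hne _)
    · exact Finset.prod_congr rfl fun j _ => wf_pow v E hQ.hE e _ (hne _)

end Pool.Agent.SZG.H43
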